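import Pool.Agent.Q266.N18C

set_option autoImplicit false

namespace Pool.Agent.Results.MP_3da5e8_co.OnlyTrivial

/-- `(n, e) → (k, l)`: every graph with `n` vertices and `e` edges has `k` vertices spanning
exactly `l` or exactly `(k choose 2) - l` edges. -/
def Arrow (n e k l : ℕ) : Prop :=
  ∀ G : SimpleGraph (Fin n), G.edgeSet.ncard = e →
    ∃ S : Finset (Fin n), S.card = k ∧
      ((G.induce (S : Set (Fin n))).edgeSet.ncard = l ∨
        (G.induce (S : Set (Fin n))).edgeSet.ncard = k.choose 2 - l)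

/-- For `n ≥ 9` and `0 ≤ e ≤ (n choose 2)`, the relation `(n, e) → (9, 18)` holds only in the
trivial case `(n, e) = (9, 18)`. -/
theorem result : ∀ n e : ℕ, 9 ≤ n → e ≤ n.choose 2 → (Arrow n e 9 18 ↔ n = 9 ∧ e = 18) := by
  intro n e hn he
  have h36 : Nat.choose 9 2 - 18 = 18 := by decide
  constructor
  · intro h
    by_contra hc
    have hg : Pool.Agent.Q266.N18.Good n e := by
      rcases Nat.lt_or_ge 9 n with h9 | h9
      · exact Pool.Agent.Q266.N18.good_all n e h9 he
      · obtain rfl : n = 9 := by omega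
        exact Pool.Agent.Q266.N18.good_nine e he (fun h => hc ⟨rfl, h⟩)
    obtain ⟨G, hG, hS⟩ := Pool.Agent.Q266.N18.of_good hg
    obtain ⟨S, h9, h18 | h18⟩ := h G hG
    · exact hS S h9 h18
    · rw [h36] at h18
      exact hS S h9 h18
  · rintro ⟨rfl, rfl⟩ G hG
    refine ⟨Finset.univ, by simp, Or.inl ?_⟩
    rw [Pool.Agent.Q266.N18.induce_ncard, ← hG]
    congr 1
    ext z
    induction z using Sym2.ind with
    | _ a b => simp

end Pool.Agent.Results.MP_3da5e8_co.OnlyTrivial
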